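import Mathlib
import Pool.Agent.N236.UB.Stm

/-!
# Project UB, part PER2: period bound for `|δ| = 1`.
-/

set_option autoImplicit false

open Polynomial

namespace Pool.Agent.N907.UB

open Pool.Agent.N236.UB

section

variable {L : Type} [Field L] {v : AbsoluteValue L ℝ}

/-- the ultrametric inequality -/
def NA (v : AbsoluteValue L ℝ) : Prop := ∀ x y : L, v (x + y) ≤ max (v x) (v y)

theorem na_sub (h : NA v) (x y : L) : v (x - y) ≤ max (v x) (v y) := by
  have := h x (-y)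
  rwa [v.map_neg, ← sub_eq_add_neg] at this

theorem na_add_le (h : NA v) {x y : L} {r : ℝ} (hx : v x ≤ r) (hy : v y ≤ r) : v (x + y) ≤ r :=
  (h x y).trans (max_le hx hy)

theorem na_sub_le (h : NA v) {x y : L} {r : ℝ} (hx : v x ≤ r) (hy : v y ≤ r) : v (x - y) ≤ r :=
  (na_sub h x y).trans (max_le hx hy)

theorem na_sum_le (h : NA v) {ι : Type} (s : Finset ι) {f : ι → L} {r : ℝ} (hr : 0 ≤ r)
    (hf : ∀ i ∈ s, v (f i) ≤ r) : v (∑ i ∈ s, f i) ≤ r := by
  classical
  induction s using Finset.induction_on with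
  | empty => simpa using hr
  | insert i s hi ih =>
    rw [Finset.sum_insert hi]
    exact na_add_le h (hf i (Finset.mem_insert_self _ _))
      (ih fun j hj => hf j (Finset.mem_insert_of_mem hj))

/-- entrywise bound -/
def Bd (v : AbsoluteValue L ℝ) (r : ℝ) (X : Matrix (Fin 2) (Fin 2) L) : Prop :=
  ∀ a b, v (X a b) ≤ r

theorem bd_mul_left (h : NA v) {r : ℝ} {X Y : Matrix (Fin 2) (Fin 2) L} (hX : Bd v 1 X)
    (hY : Bd v r Y) : Bd v r (X * Y) := by
  intro a b
  rw [Matrix.mul_apply, Fin.sum_univ_two]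
  have h1 : ∀ c, v (X a c * Y c b) ≤ r := fun c => by
    rw [v.map_mul]
    calc v (X a c) * v (Y c b) ≤ 1 * v (Y c b) :=
          mul_le_mul_of_nonneg_right (hX a c) (v.nonneg _)
      _ ≤ r := by rw [one_mul]; exact hY c b
  exact na_add_le h (h1 0) (h1 1)

theorem bd_mul_right (h : NA v) {r : ℝ} {X Y : Matrix (Fin 2) (Fin 2) L} (hX : Bd v r X)
    (hY : Bd v 1 Y) : Bd v r (X * Y) := by
  intro a b
  rw [Matrix.mul_apply, Fin.sum_univ_two]
  have h1 : ∀ c, v (X a c * Y c b) ≤ r := fun c => by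
    rw [v.map_mul]
    calc v (X a c) * v (Y c b) ≤ v (X a c) * 1 :=
          mul_le_mul_of_nonneg_left (hY c b) (v.nonneg _)
      _ ≤ r := by rw [mul_one]; exact hX a c
  exact na_add_le h (h1 0) (h1 1)

theorem bd_one : Bd v 1 (1 : Matrix (Fin 2) (Fin 2) L) := by
  intro a b
  by_cases hab : a = b
  · subst hab; simp
  · rw [Matrix.one_apply_ne hab, v.map_zero]; exact zero_le_one

theorem bd_pow (h : NA v) {X : Matrix (Fin 2) (Fin 2) L} (hX : Bd v 1 X) (k : ℕ) :
    Bd v 1 (X ^ k) := by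
  induction k with
  | zero => rw [pow_zero]; exact bd_one
  | succ k ih => rw [pow_succ]; exact bd_mul_left h ih hX

theorem bd_sub_mul (h : NA v) {r : ℝ} {X X' Y Y' : Matrix (Fin 2) (Fin 2) L} (hX : Bd v r (X - X'))
    (hY : Bd v r (Y - Y')) (hX1 : Bd v 1 X) (hY1 : Bd v 1 Y') : Bd v r (X * Y - X' * Y') := by
  have h1 : X * Y - X' * Y' = X * (Y - Y') + (X - X') * Y' := by
    rw [mul_sub, sub_mul]; abel
  rw [h1]
  intro a b
  rw [Matrix.add_apply]
  exact na_add_le h (bd_mul_left h hX1 hY a b) (bd_mul_right h hX hY1 a b)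

theorem bd_trans (h : NA v) {r : ℝ} {X Y Z : Matrix (Fin 2) (Fin 2) L} (hX : Bd v r (X - Y))
    (hY : Bd v r (Y - Z)) : Bd v r (X - Z) := by
  intro a b
  have h1 : (X - Z) a b = (X - Y) a b + (Y - Z) a b := by
    simp only [Matrix.sub_apply]; ring
  rw [h1]
  exact na_add_le h (hX a b) (hY a b)

theorem bd_vec (h : NA v) {r s : ℝ} {X : Matrix (Fin 2) (Fin 2) L} {w : Fin 2 → L}
    (hX : Bd v r X) (hw : ∀ a, v (w a) ≤ s) (a : Fin 2) : v (X.mulVec w a) ≤ r * s := by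
  rw [Matrix.mulVec, dotProduct, Fin.sum_univ_two]
  have h1 : ∀ c, v (X a c * w c) ≤ r * s := fun c => by
    rw [v.map_mul]
    exact mul_le_mul (hX a c) (hw c) (v.nonneg _) ((v.nonneg _).trans (hX a c))
  exact na_add_le h (h1 0) (h1 1)

/-- the transfer matrix -/
def Tm (δ x : L) : Matrix (Fin 2) (Fin 2) L := !![0, 1; -δ, x]

/-- product of transfer matrices -/
def Pm (δ : L) (κ : ℤ → L) (n : ℤ) : ℕ → Matrix (Fin 2) (Fin 2) L
  | 0 => 1
  | k + 1 => Tm δ (κ (n + k + 1)) * Pm δ κ n k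

theorem bd_Tm {δ x : L} (hδ : v δ ≤ 1) (hx : v x ≤ 1) : Bd v 1 (Tm δ x) := by
  intro a b
  fin_cases a <;> fin_cases b <;> simp [Tm, hδ, hx]

theorem bd_Pm (h : NA v) {δ : L} {κ : ℤ → L} (hδ : v δ ≤ 1) (hκ : ∀ n, v (κ n) ≤ 1) (n : ℤ) (k : ℕ) :
    Bd v 1 (Pm δ κ n k) := by
  induction k with
  | zero => exact bd_one
  | succ k ih => exact bd_mul_left h (bd_Tm hδ (hκ _)) ih

theorem Pm_add (δ : L) (κ : ℤ → L) (n : ℤ) (a b : ℕ) :
    Pm δ κ n (a + b) = Pm δ κ (n + a) b * Pm δ κ n a := by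
  induction b with
  | zero => simp [Pm]
  | succ b ih =>
    rw [← add_assoc, Pm, ih, Pm, Matrix.mul_assoc]
    congr 3
    push_cast
    ring_nf

theorem det_Pm (δ : L) (κ : ℤ → L) (n : ℤ) (k : ℕ) : (Pm δ κ n k).det = δ ^ k := by
  induction k with
  | zero => simp [Pm]
  | succ k ih =>
    rw [Pm, Matrix.det_mul, ih, pow_succ]
    simp [Tm, Matrix.det_fin_two_of, mul_comm]

theorem Pm_congr (h : NA v) {δ : L} {κ κ' : ℤ → L} {n n' : ℤ} {r : ℝ} (hr : 0 ≤ r) (hδ : v δ ≤ 1)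
    (hκ : ∀ n, v (κ n) ≤ 1) (hκ' : ∀ n, v (κ' n) ≤ 1)
    (hc : ∀ i : ℤ, v (κ (n + i) - κ' (n' + i)) ≤ r) (k : ℕ) :
    Bd v r (Pm δ κ n k - Pm δ κ' n' k) := by
  induction k with
  | zero => intro a b; simpa [Pm] using hr
  | succ k ih =>
    rw [Pm, Pm]
    refine bd_sub_mul h ?_ ih (bd_Tm hδ (hκ _)) (bd_Pm h hδ hκ' _ _)
    intro a b
    have h1 := hc (k + 1)
    rw [← add_assoc, ← add_assoc] at h1
    fin_cases a <;> fin_cases b <;> simp [Tm, hr, h1]

/-- the displacement of the shift by `s` -/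
def es (y : ℤ → L) (s n : ℤ) : L := y (n + s) - y n

/-- the divided differences -/
noncomputable def ks (G : L[X]) (y : ℤ → L) (s n : ℤ) : L := dd G (y (n + s)) (y n)

/-- the displacement vector -/
def Vs (y : ℤ → L) (s n : ℤ) : Fin 2 → L := ![es y s n, es y s (n + 1)]

theorem Vs_zero (y : ℤ → L) (s n : ℤ) : Vs y s n 0 = es y s n := rfl

theorem Vs_one (y : ℤ → L) (s n : ℤ) : Vs y s n 1 = es y s (n + 1) := rfl

theorem Vs_step {G : L[X]} {δ : L} {y : ℤ → L}
    (hdd : ∀ x y : L, G.eval x - G.eval y = dd G x y * (x - y)) (hrec : Rec G δ y) (s n : ℤ) :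
    Vs y s (n + 1) = (Tm δ (ks G y s (n + 1))).mulVec (Vs y s n) := by
  funext a
  fin_cases a
  · simp [Vs, Tm, Matrix.mulVec, dotProduct, Fin.sum_univ_two]
  · have h1 := hrec (n + 1)
    have h2 := hrec (n + 1 + s)
    have h3 := hdd (y (n + 1 + s)) (y (n + 1))
    rw [← h1, ← h2] at h3
    have e1 : n + 1 + s + 1 = n + 1 + 1 + s := by ring
    have e2 : n + 1 + s - 1 = n + s := by ring
    have e3 : n + 1 - 1 = n := by ring
    rw [e1, e2, e3] at h3
    simp only [Vs, Tm, Matrix.mulVec, dotProduct, Fin.sum_univ_two, es, ks, Matrix.of_apply,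
      Matrix.cons_val', Matrix.cons_val_zero, Matrix.cons_val_one, Fin.mk_one, Fin.isValue,
      Matrix.cons_val_fin_one]
    linear_combination h3

theorem Vs_add {G : L[X]} {δ : L} {y : ℤ → L}
    (hdd : ∀ x y : L, G.eval x - G.eval y = dd G x y * (x - y)) (hrec : Rec G δ y) (s n : ℤ) (k : ℕ) :
    Vs y s (n + k) = (Pm δ (ks G y s) n k).mulVec (Vs y s n) := by
  induction k with
  | zero => simp [Pm]
  | succ k ih =>
    rw [Pm, ← Matrix.mulVec_mulVec, ← ih, ← Vs_step hdd hrec]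
    congr 1
    push_cast
    ring

omit [Field L] in
theorem per_mul {y : ℤ → L} {N : ℕ} (h : Per y N) (k : ℕ) (n : ℤ) : y (n + N * k) = y n := by
  induction k with
  | zero => simp
  | succ k ih =>
    have : n + (N : ℤ) * ((k + 1 : ℕ) : ℤ) = (n + N * k) + N := by push_cast; ring
    rw [this, h, ih]

theorem es_shift {y : ℤ → L} {N : ℕ} (h : Per y N) (k : ℕ) (s n : ℤ) :
    es y s (n + N * k) = es y s n := by
  unfold es
  rw [per_mul h, show n + (N : ℤ) * k + s = n + s + N * k by ring, per_mul h]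

/-- if the displacement vector is bounded at `0`, then the displacement is bounded everywhere -/
theorem es_le (h : NA v) {G : L[X]} {δ : L} {y : ℤ → L} {N : ℕ} (hN : 1 ≤ N) (hper : Per y N)
    (hdd : ∀ x y : L, G.eval x - G.eval y = dd G x y * (x - y)) (hrec : Rec G δ y)
    (hδ : v δ ≤ 1) {s : ℤ} (hκ : ∀ n, v (ks G y s n) ≤ 1) {r : ℝ}
    (hr : ∀ a, v (Vs y s 0 a) ≤ r) (n : ℤ) : v (es y s n) ≤ r := by
  have h1 : ∀ k : ℕ, v (es y s k) ≤ r := fun k => by
    have h2 := Vs_add hdd hrec s 0 k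
    rw [zero_add] at h2
    rw [← Vs_zero, h2]
    have h3 := bd_vec h (bd_Pm h hδ hκ 0 k) hr 0
    rwa [one_mul] at h3
  have h2 := es_shift hper n.natAbs s n
  rw [← h2]
  have h3 : 0 ≤ n + (N : ℤ) * n.natAbs := by
    have h4 : (n.natAbs : ℤ) ≤ (N : ℤ) * n.natAbs := by
      have : (1 : ℤ) ≤ N := by exact_mod_cast hN
      nlinarith [Int.natCast_nonneg n.natAbs]
    have h5 : -n ≤ n.natAbs := by omega
    linarith
  obtain ⟨k, hk⟩ := Int.eq_ofNat_of_zero_le h3
  rw [hk]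
  exact h1 k

theorem es_tel (y : ℤ → L) (s n : ℤ) (t : ℕ) :
    es y (t * s) n = ∑ i ∈ Finset.range t, es y s (n + i * s) := by
  induction t with
  | zero => simp [es]
  | succ t ih =>
    rw [Finset.sum_range_succ, ← ih]
    unfold es
    push_cast
    ring_nf

theorem es_mul_le (h : NA v) {y : ℤ → L} {s : ℤ} {r : ℝ} (hr : 0 ≤ r) (hs : ∀ n, v (es y s n) ≤ r)
    (t : ℕ) (n : ℤ) : v (es y (t * s) n) ≤ r := by
  rw [es_tel]
  exact na_sum_le h _ hr fun i _ => hs _

end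

theorem t_per2 : S_DD → S_PIG → S_ABS → S_GL → S_PER2 := by
  intro hDD hPIG hABS hGL L _ v p q e hL hp G δ y N hG hδ hN hper hy hrec
  have hna : NA v := hL.1
  obtain ⟨m, hm1, hmq, hm⟩ := hPIG L v p q e hL G δ y N hG hδ.le hN hper hy hrec
  obtain ⟨hdd, hdd2⟩ := hDD L v p q e hL G
  obtain ⟨hdi, hdc⟩ := hdd2 hG
  have hκ : ∀ s n, v (ks G y s n) ≤ 1 := fun s n => hdi _ _ (hy _) (hy _)
  have hq2 : 2 ≤ q := by
    obtain ⟨O, k, _, _, red, -, -, -, hc⟩ := hL.2.2.2
    rw [← hc]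
    exact Fintype.one_lt_card
  have hgl : 1 ≤ gl q := by
    unfold gl
    have h1 : 0 < q ^ 2 - 1 := by
      have : 4 ≤ q ^ 2 := by nlinarith
      omega
    have h2 : 0 < q ^ 2 - q := by
      have : q + 1 ≤ q ^ 2 := by nlinarith
      omega
    exact Nat.mul_pos h1 h2
  -- zero displacement at 0 gives a period
  have hzero : ∀ s : ℤ, Vs y s 0 = 0 → ∀ n, y (n + s) = y n := by
    intro s hs n
    have h1 := es_le hna hN hper hdd hrec hδ.le (hκ s) (r := 0)
      (fun a => by rw [hs]; simp) n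
    have h2 : es y s n = 0 := (AbsoluteValue.eq_zero v).1 (le_antisymm h1 (v.nonneg _))
    unfold es at h2
    exact sub_eq_zero.1 h2
  -- the main congruence
  have hmain : ∀ (s : ℕ) (r : ℝ), (∀ a, v (Vs y s 0 a) ≤ r) → ∀ t : ℕ,
      Bd v r (Pm δ (ks G y s) 0 (t * s) - (Pm δ (ks G y s) 0 s) ^ t) := by
    intro s r hr t
    have hr0 : 0 ≤ r := (v.nonneg _).trans (hr 0)
    have hes := es_le hna hN hper hdd hrec hδ.le (hκ s) hr
    induction t with
    | zero => intro a b; simpa [Pm] using hr0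
    | succ t ih =>
      rw [show (t + 1) * s = t * s + s by ring, Pm_add, pow_succ']
      refine bd_sub_mul hna ?_ ih (bd_Pm hna hδ.le (hκ s) _ _) (bd_pow hna (bd_Pm hna hδ.le (hκ s) _ _) _)
      refine Pm_congr hna hr0 hδ.le (hκ s) (hκ s) ?_ s
      intro i
      refine (hdc _ _ _ _ (hy _) (hy _) (hy _) (hy _)).trans (max_le ?_ ?_)
      · have h1 := es_mul_le hna hr0 hes t (0 + i + s)
        unfold es at h1
        rw [show (0 : ℤ) + ((t * s : ℕ) : ℤ) + i + s = 0 + i + s + t * s by push_cast; ring]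
        exact h1
      · have h1 := es_mul_le hna hr0 hes t (0 + i)
        unfold es at h1
        rw [show (0 : ℤ) + ((t * s : ℕ) : ℤ) + i = 0 + i + t * s by push_cast; ring]
        exact h1
  have hkey : ∀ (i s : ℕ) (r : ℝ), (∀ a, v (Vs y s 0 a) ≤ r) →
      ∀ a, v ((Vs y ((i * s : ℕ) : ℤ) 0 -
        (∑ t ∈ Finset.range i, (Pm δ (ks G y s) 0 s) ^ t).mulVec (Vs y s 0)) a) ≤ r * r := by
    intro i s r hr a
    have hr0 : 0 ≤ r := (v.nonneg _).trans (hr 0)
    have h1 : Vs y ((i * s : ℕ) : ℤ) 0 = ∑ t ∈ Finset.range i, Vs y s ((t * s : ℕ) : ℤ) := by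
      funext a
      rw [Finset.sum_apply]
      fin_cases a
      · change es y ((i * s : ℕ) : ℤ) 0 = ∑ t ∈ Finset.range i, es y s ((t * s : ℕ) : ℤ)
        push_cast
        rw [es_tel]
        simp only [zero_add]
      · change es y ((i * s : ℕ) : ℤ) (0 + 1) = ∑ t ∈ Finset.range i, es y s (((t * s : ℕ) : ℤ) + 1)
        push_cast
        rw [es_tel]
        refine Finset.sum_congr rfl fun t _ => ?_
        congr 1
        ring
    rw [h1, Matrix.sum_mulVec, ← Finset.sum_sub_distrib, Finset.sum_apply]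
    refine na_sum_le hna _ (mul_nonneg hr0 hr0) fun t _ => ?_
    have h2 := Vs_add hdd hrec (s : ℤ) 0 (t * s)
    rw [zero_add] at h2
    rw [h2, ← Matrix.sub_mulVec]
    exact bd_vec hna (hmain s r hr t) hr a
  have hfin := hABS L v p q e 2 (gl q) hL hp hgl (fun j => Vs y ((j * m : ℕ) : ℤ) 0)
    (fun j => Pm δ (ks G y ((j * m : ℕ) : ℤ)) 0 (j * m)) ?_ ?_ ?_ ?_ ?_ ?_ ?_
  · -- conclusion
    have h1 := hzero _ hfin
    have h2 : Per y (gl q * p ^ (e + 1) * m) := fun n => h1 n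
    have h3 : m ∣ Nat.factorial (q ^ 2) := Nat.dvd_factorial hm1 hmq
    obtain ⟨c, hc⟩ := h3
    intro n
    have h4 := per_mul h2 c n
    unfold N0
    rw [hc]
    rw [show (((m * c * (gl q * p ^ (e + 1)) : ℕ) : ℕ) : ℤ) =
      ((gl q * p ^ (e + 1) * m : ℕ) : ℤ) * c by push_cast; ring]
    exact h4
  · -- displacement is small
    intro j a hj
    obtain ⟨w, hw0, hw1, hw, -⟩ := hL.2.1
    have h1 : ∀ n, v (es y m n) ≤ v w := fun n => hw _ (hm n)
    have h2 := es_mul_le hna (v.nonneg w) h1 j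
    have h3 : ∀ n, v (es y ((j * m : ℕ) : ℤ) n) < 1 := fun n => by
      push_cast
      exact (h2 n).trans_lt hw1
    fin_cases a
    · exact h3 0
    · exact h3 (0 + 1)
  · intro j a b _
    exact bd_Pm hna hδ.le (hκ _) _ _ a b
  · intro _ a b
    refine (hGL L v p q e hL).1 _ (bd_Pm hna hδ.le (hκ _) _ _) ?_ a b
    rw [det_Pm, v.map_pow, hδ, one_pow]
  · intro i j _ _ hj
    have h1 := hzero _ hj
    have h2 : Per y (j * m) := fun n => h1 n
    have h3 : ∀ n, es y ((i * j * m : ℕ) : ℤ) n = 0 := fun n => by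
      have h4 := per_mul h2 i n
      unfold es
      rw [show (((i * j * m : ℕ) : ℕ) : ℤ) = ((j * m : ℕ) : ℤ) * i by push_cast; ring, h4, sub_self]
    funext a
    fin_cases a
    · exact h3 0
    · exact h3 (0 + 1)
  · intro i j _ _ _ r hr a
    have h1 := hkey i (j * m) r hr a
    simpa only [Nat.mul_assoc] using h1
  · intro i j hi _ _ r hr a b
    have hr0 : 0 ≤ r := (v.nonneg _).trans (hr 0)
    have hes := es_le hna hN hper hdd hrec hδ.le (hκ ((j * m : ℕ) : ℤ)) hr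
    have h1 : Bd v r (Pm δ (ks G y ((i * j * m : ℕ) : ℤ)) 0 (i * j * m) -
        Pm δ (ks G y ((j * m : ℕ) : ℤ)) 0 (i * j * m)) := by
      refine Pm_congr hna hr0 hδ.le (hκ _) (hκ _) ?_ _
      intro n
      refine (hdc _ _ _ _ (hy _) (hy _) (hy _) (hy _)).trans (max_le ?_ ?_)
      · obtain ⟨i', rfl⟩ := Nat.exists_eq_add_of_le' hi
        have h2 := es_mul_le hna hr0 hes i' (0 + n + (j * m : ℕ))
        unfold es at h2
        rw [show (0 : ℤ) + n + (((i' + 1) * j * m : ℕ) : ℤ) =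
          0 + n + ((j * m : ℕ) : ℤ) + i' * ((j * m : ℕ) : ℤ) by push_cast; ring]
        exact h2
      · rw [sub_self, v.map_zero]
        exact hr0
    have h2 := hmain (j * m) r hr i
    rw [← Nat.mul_assoc] at h2
    exact bd_trans hna h1 h2 a b
  · refine ⟨N, hN, ?_⟩
    have h3 : ∀ n, es y ((N * m : ℕ) : ℤ) n = 0 := fun n => by
      have h4 := per_mul hper m n
      unfold es
      push_cast
      rw [h4, sub_self]
    funext a
    fin_cases a
    · exact h3 0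
    · exact h3 (0 + 1)

end Pool.Agent.N907.UB
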